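import Mathlib
import Pool.Agent.U301.LDThree

set_option autoImplicit false

namespace Pool.Agent.Results.MP_c81705_nt.QOneFull

open Pool.Agent.R945.LD Pool.Agent.U301.LDThree NumberField Module

/-- the determinant `D_p` of the problem, index range `0 ≤ j, k ≤ (p-1)/2` -/
def D (p : ℕ) [Fact p.Prime] (R : Type) [CommRing R] (x y z w : R) : R :=
  Matrix.det (Matrix.of fun j k : Fin ((p - 1) / 2 + 1) =>
        x + (legendreSym p ((j : ℤ) + (k : ℤ)) : R)
          + (legendreSym p ((j : ℤ) - (k : ℤ)) : R)
          + (legendreSym p (j : ℤ) : R) * y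
          + (legendreSym p (k : ℤ) : R) * z
          + (legendreSym p ((j : ℤ) * (k : ℤ)) : R) * w)

theorem result (p : ℕ) [Fact p.Prime] (hp3 : 3 < p) :
    (p % 4 = 1 → ∀ (R : Type) [CommRing R] (x y z w : R),
      D p R x y z w = (legendreSym p 2 : R) * (p : R) ^ ((p + 3) / 4) * x) ∧
    (p % 4 = 3 → ∀ (K : Type) [Field K] [NumberField K], finrank ℚ K = 2 →
      (∃ β : K, β ^ 2 = -(p : K)) → ∀ (R : Type) [CommRing R] (x y z w : R),
      D p R x y z w = (-1) ^ ((classNumber K - 1) / 2) * (p : R) ^ ((p - 3) / 4) *
        (p * x + (2 - (legendreSym p 2 : R)) * (classNumber K : R) * ((y + 2) * z - w * x))) := by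
  have hpp : p.Prime := Fact.out
  obtain ⟨m, hm⟩ : ∃ m, p = 2 * m + 1 := by
    rcases hpp.eq_two_or_odd with h | h
    · omega
    · exact ⟨p / 2, by omega⟩
  have hm1 : (p - 1) / 2 = m := by omega
  have hL : ∀ a : ℤ, legendreSym p a = q p (a : ZMod p) := fun a => rfl
  constructor
  · intro hp R _ x y z w
    have hp5 : 5 ≤ p := by
      have := hpp.two_le
      omega
    have hq5 : (p + 3) / 4 = (m / 2 - 1) + 2 := by omega
    unfold D
    rw [hm1, hq5]
    have e : (Matrix.of fun j k : Fin (m + 1) =>
          x + (legendreSym p ((j : ℤ) + (k : ℤ)) : R)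
            + (legendreSym p ((j : ℤ) - (k : ℤ)) : R)
            + (legendreSym p (j : ℤ) : R) * y
            + (legendreSym p (k : ℤ) : R) * z
            + (legendreSym p ((j : ℤ) * (k : ℤ)) : R) * w) =
        bd x (fun k => (z + 2) * xv p m R k + x) (fun j => (y + 2) * xv p m R j + x)
        (Matrix.of fun j k : Fin m => x + Bm p m R j k + xv p m R j * y + xv p m R k * z
        + xv p m R j * xv p m R k * w) := by
      apply eq_bd
      · simp [hL, q_zero]
      · intro k
        simp only [Matrix.of_apply, hL, xv, Fin.val_zero, Fin.val_succ]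
        push_cast
        rw [zero_add, zero_sub, q_even hp, q_zero, zero_mul, q_zero]
        simp only [J]
        push_cast
        ring
      · intro j
        simp only [Matrix.of_apply, hL, xv, Fin.val_zero, Fin.val_succ]
        push_cast
        rw [add_zero, sub_zero, q_zero, mul_zero, q_zero]
        simp only [J]
        push_cast
        ring
      · intro j k
        simp only [Matrix.of_apply, hL, xv, Fin.val_succ, Bm]
        push_cast
        rw [q_mul]
        simp only [J]
        push_cast
        ring
    rw [e, det_big hp hm, ← Bm_cast, det_B hp hm]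
    have h2 : legendreSym p 2 = - (-1) ^ (m / 2 - 1) := by
      rw [legendreSym.at_two (by omega : p ≠ 2), ZMod.χ₈_nat_eq_if_mod_eight, if_neg (by omega)]
      have hm4 : 2 ≤ m := by omega
      rcases Nat.even_or_odd (m / 2 - 1) with h | h
      · rw [if_neg (by obtain ⟨r, hr⟩ := h; omega), h.neg_one_pow]
      · rw [if_pos (by obtain ⟨r, hr⟩ := h; omega), h.neg_one_pow]; norm_num
    rw [h2]
    push_cast
    rw [neg_pow (p : R) (m / 2 - 1), pow_add]
    ring
  · intro h3 K _ _ h2 ⟨β, hβ⟩ R _ x y z w
    have e : (Matrix.of fun j k : Fin (m + 1) =>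
          x + (legendreSym p ((j : ℤ) + (k : ℤ)) : R)
            + (legendreSym p ((j : ℤ) - (k : ℤ)) : R)
            + (legendreSym p (j : ℤ) : R) * y
            + (legendreSym p (k : ℤ) : R) * z
            + (legendreSym p ((j : ℤ) * (k : ℤ)) : R) * w) =
        bd x (fun k => z * xv p m R k + x) (fun j => (y + 2) * xv p m R j + x)
        (Matrix.of fun j k : Fin m => x + Bm p m R j k + xv p m R j * y + xv p m R k * z
        + xv p m R j * xv p m R k * w) := by
      apply eq_bd
      · simp [hL, q_zero]
      · intro k
        simp only [Matrix.of_apply, hL, xv, Fin.val_zero, Fin.val_succ]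
        push_cast
        rw [zero_add, zero_sub, q_odd h3, q_zero, zero_mul, q_zero]
        simp only [J]
        push_cast
        ring
      · intro j
        simp only [Matrix.of_apply, hL, xv, Fin.val_zero, Fin.val_succ]
        push_cast
        rw [add_zero, sub_zero, q_zero, mul_zero, q_zero]
        simp only [J]
        push_cast
        ring
      · intro j k
        simp only [Matrix.of_apply, hL, xv, Fin.val_succ, Bm]
        push_cast
        rw [q_mul]
        simp only [J]
        push_cast
        ring
    have hS := half_sum p (by omega) h3 m hm K h2 β hβ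
    have hS' : ∑ k, xv p m R k = (2 - (legendreSym p 2 : R)) * (classNumber K : R) := by
      have := congrArg (Int.cast : ℤ → R) hS
      rw [hL]
      push_cast at this ⊢
      rw [← this]
      simp [xv]
    unfold D
    rw [hm1, e, det_big_three hm, ← Bm_cast, det_B_three h3 hm (by omega) (classNumber K) hS, hS']
    push_cast
    ring

end Pool.Agent.Results.MP_c81705_nt.QOneFull
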